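import Pool.Agent.H29.DPC.S1

/-!
# DPC: COR, the linear system has only the zero solution
-/

set_option autoImplicit false

namespace Pool.DPC

open Polynomial Complex

theorem t_COR (hI : IDXStmt) (hQ : QSMStmt) (hA : STAStmt) (hB : STBStmt) (hC : STCStmt)
    (hS : SUPStmt) : CORStmt := by
  obtain ⟨-, -, -, -, ht1, -, -, htord, -⟩ := hS
  intro n d W R hn hnd hR hY
  obtain ⟨h1, h2⟩ := hI n W R hn hY
  have key : ∀ m : ℕ, ∀ φ : Ch, Tame n φ → orderOf φ = m → W φ = 0 := by
    intro m
    induction m using Nat.strong_induction_on with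
    | _ m ih =>
      intro φ hφ hm
      have hIH : IH n W (orderOf φ) := fun ψ hψ hlt => ih (orderOf ψ) (hm ▸ hlt) ψ hψ rfl
      have hm0 : 0 < orderOf φ := (htord n φ hn hφ).1
      have hone : ∀ ψ : Ch, Tame n ψ → wl W R (sup ψ) ψ = W ψ := by
        intro ψ _
        rw [wl, Set.sdiff_self]
        simp
      rcases lt_or_ge 2 (orderOf φ) with h | h
      · obtain ⟨q, hq, hq1, hq2⟩ := hQ φ hφ.fin h
        by_cases hqq : (q : ℕ) ^ 2 ∣ orderOf φ
        · exact hC n d W R hn hnd hR h1 h2 φ q hφ hqq hq1 hIH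
        · have hqn2 : (q : ℕ) ≠ 2 := hq2.resolve_left hqq
          refine hB n d W R hn hnd hR h1 h2 φ q hφ hqn2 hq hqq hq1 hIH fun ψ hψ hord hψ1 hT => ?_
          exact hA n d W R hn hnd hR h1 h2 ψ q hψ hqn2 (by rw [hord]; exact hq)
            (by rw [hord]; exact hqq) hψ1 (by rw [hord]; exact hIH) hT
      · have hcase : orderOf φ = 1 ∨ orderOf φ = 2 := by omega
        rcases hcase with h3 | h3
        · have h4 := h1 φ hφ
          rw [h3, Finset.sum_range_one, pow_zero] at h4
          have h5 : φ = 1 := orderOf_eq_one_iff.1 h3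
          rw [h5, hone 1 (ht1 n)] at h4
          rw [h5]
          exact h4
        · have h4 := h1 φ hφ
          rw [h3, Finset.sum_range_succ, Finset.sum_range_one, pow_zero, pow_one,
            hone φ hφ] at h4
          have h6 : W 1 = 0 := hIH 1 (ht1 n) (by rw [h3, orderOf_one]; norm_num)
          rw [wl, h6, zero_mul, zero_add] at h4
          exact h4
  intro φ hφ
  exact key _ φ hφ rfl

end Pool.DPC
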