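import Pool.Agent.H29.DPC.S2

/-!
# DPC: LVL, all levels
-/

set_option autoImplicit false

namespace Pool.DPC

open Polynomial Complex

/-- LVL: the same at all levels. -/
theorem t_LVL (hG : GRFStmt) : LVLStmt := by
  intro k n d P V hn g s hg π φ hφ h C hC
  obtain ⟨r, hr, hgr⟩ := hG k n d P C hn hC g s hg φ hφ
  have h1 : wl V (Rf d P) C φ = r • V φ := by
    rw [wl, ← hr, mul_comm]
    rfl
  have h2 : wl V (Rf d P) C (φ ^ s) = V (φ ^ s) * ((g r : cyc k n) : ℂ) := by
    rw [wl, ← hgr]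
  rw [h1, h2, map_smul, smul_eq_mul, map_mul, MulMemClass.coe_mul, h]
  ring

end Pool.DPC
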