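import Pool.Agent.H29.DPC.S1

/-!
# DPC: MID, the main identity
-/

set_option autoImplicit false

namespace Pool.DPC

open Polynomial Complex

namespace MID

theorem mem_un {m i : ℕ} : i ∈ un m ↔ i < m ∧ i.Coprime m := by
  simp [un]

/-- multiplication by a unit permutes the nonzero residues -/
theorem sum_perm {q i : ℕ} (hq : q.Prime) (hi : i.Coprime q) (f : ℕ → ℂ) :
    ∑ b ∈ Finset.Ico 1 q, f (b * i % q) = ∑ b ∈ Finset.Ico 1 q, f b := by
  have hinj : Set.InjOn (fun b => b * i % q) (Finset.Ico 1 q : Finset ℕ) := by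
    intro b hb b' hb' h
    simp only [Finset.coe_Ico, Set.mem_Ico] at hb hb'
    have h1 : b * i ≡ b' * i [MOD q] := h
    have h2 : b ≡ b' [MOD q] := Nat.ModEq.cancel_right_of_coprime hi.symm h1
    have h3 : b % q = b' % q := h2
    rwa [Nat.mod_eq_of_lt hb.2, Nat.mod_eq_of_lt hb'.2] at h3
  have himg : (Finset.Ico 1 q).image (fun b => b * i % q) = Finset.Ico 1 q := by
    apply Finset.eq_of_subset_of_card_le
    · intro x hx
      obtain ⟨b, hb, rfl⟩ := Finset.mem_image.1 hx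
      rw [Finset.mem_Ico] at hb ⊢
      refine ⟨?_, Nat.mod_lt _ hq.pos⟩
      rw [Nat.one_le_iff_ne_zero]
      intro h0
      have h1 : q ∣ b * i := Nat.dvd_of_mod_eq_zero h0
      rcases hq.dvd_mul.1 h1 with h2 | h2
      · exact absurd (Nat.le_of_dvd (by omega) h2) (by omega)
      · exact hq.one_lt.ne' (Nat.eq_one_of_dvd_coprimes hi h2 dvd_rfl)
    · rw [Finset.card_image_of_injOn hinj]
  have h4 : ∑ x ∈ (Finset.Ico 1 q).image (fun b => b * i % q), f x =
      ∑ b ∈ Finset.Ico 1 q, f (b * i % q) := Finset.sum_image hinj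
  rw [← h4, himg]

end MID

/-- MID: the main identity. -/
theorem t_MID (hS : SUPStmt) (hE : EVPStmt) : MIDStmt := by
  obtain ⟨-, hsd, hspow, hscop, -, htmul, htpow, htord, hind⟩ := hS
  obtain ⟨-, hev, -, -, -⟩ := hE
  intro n W R hn h1 h2 φ χ q hφ hχ hdis hq hχq hqm hIH
  set m := orderOf φ with hm
  set C := sup φ ∪ sup χ with hC
  have hm0 : 0 < m := (htord n φ hn hφ).1
  have hχ1 : χ ^ q = 1 := by rw [← hχq]; exact pow_orderOf_eq_one χ
  have hφ1 : φ ^ m = 1 := pow_orderOf_eq_one φ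
  have hχdvd : ∀ k, q ∣ k → χ ^ k = 1 := by
    rintro k ⟨c, rfl⟩
    rw [pow_mul, hχ1, one_pow]
  have hφdvd : ∀ k, m ∣ k → φ ^ k = 1 := by
    rintro k ⟨c, rfl⟩
    rw [pow_mul, hφ1, one_pow]
  have htame : ∀ i b : ℕ, Tame n (φ ^ i * χ ^ b) := fun i b =>
    htmul n _ _ (htpow n i φ hφ) (htpow n b χ hχ)
  have hzero : ∀ i b k : ℕ, 0 < k → k < m → (φ ^ i * χ ^ b) ^ k = 1 →
      wl W R C (φ ^ i * χ ^ b) = 0 := by
    intro i b k hk hkm hpow
    rw [wl, hIH _ (htame i b) (lt_of_le_of_lt (orderOf_le_of_pow_eq_one hk hpow) hkm), zero_mul]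
  -- non coprime exponents
  have hnc : ∀ i, ¬ i.Coprime m → ∃ k, 0 < k ∧ k < m ∧ φ ^ (i * k) = 1 ∧ (¬ q ∣ i → q ∣ k) := by
    intro i hi
    have hg : 0 < i.gcd m := Nat.gcd_pos_of_pos_right _ hm0
    have hg1 : i.gcd m ≠ 1 := hi
    obtain ⟨k, hk⟩ := Nat.gcd_dvd_right i m
    obtain ⟨j, hj⟩ := Nat.gcd_dvd_left i m
    have hk0 : 0 < k := by
      rcases Nat.eq_zero_or_pos k with h | h
      · rw [h, mul_zero] at hk; omega
      · exact h
    refine ⟨k, hk0, ?_, ?_, ?_⟩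
    · have : 1 * k < i.gcd m * k := Nat.mul_lt_mul_of_pos_right (by omega) hk0
      omega
    · apply hφdvd
      refine ⟨j, ?_⟩
      calc i * k = (i.gcd m * j) * k := by rw [← hj]
        _ = (i.gcd m * k) * j := by ring
        _ = m * j := by rw [← hk]
    · intro hqi
      have h3 : q ∣ i.gcd m * k := by rw [← hk]; exact hqm
      rcases hq.dvd_mul.1 h3 with h4 | h4
      · exact absurd (h4.trans (Nat.gcd_dvd_left i m)) hqi
      · exact h4
  have hf0 : ∀ i, ¬ i.Coprime m → wl W R C (φ ^ i * χ ^ 0) = 0 := by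
    intro i hi
    obtain ⟨k, hk0, hkm, hk1, -⟩ := hnc i hi
    refine hzero i 0 k hk0 hkm ?_
    rw [pow_zero, mul_one, ← pow_mul, hk1]
  have hfb : ∀ i b, ¬ i.Coprime m → ¬ q ∣ i → wl W R C (φ ^ i * χ ^ b) = 0 := by
    intro i b hi hqi
    obtain ⟨k, hk0, hkm, hk1, hk2⟩ := hnc i hi
    refine hzero i b k hk0 hkm ?_
    rw [mul_pow, ← pow_mul, hk1, one_mul, ← pow_mul, hχdvd _ ((hk2 hqi).mul_left b)]
  -- the cyclic equations
  have hcyc : ∀ b ∈ Finset.Ico 1 q,
      ∑ i ∈ un m, wl W R C (φ ^ i * χ ^ (b * i % q)) = 0 := by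
    intro b hb
    rw [Finset.mem_Ico] at hb
    have hbq : b.Coprime q := (Nat.coprime_comm.1 ((Nat.Prime.coprime_iff_not_dvd hq).2 (by
      intro h
      exact absurd (Nat.le_of_dvd (by omega) h) (by omega))))
    have hdis' : Disjoint (sup φ) (sup (χ ^ b)) := hdis.mono_right (hspow χ b)
    have hsup : sup (φ * χ ^ b) = C := by
      rw [hsd φ (χ ^ b) hdis', hscop χ b (by rw [hχq]; exact hbq)]
    have hord : orderOf (φ * χ ^ b) = m := by
      apply Nat.dvd_antisymm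
      · apply orderOf_dvd_of_pow_eq_one
        rw [mul_pow, hφ1, one_mul, ← pow_mul, hχdvd _ (hqm.mul_left b)]
      · have h3 := pow_orderOf_eq_one (φ * χ ^ b)
        rw [mul_pow, ← pow_mul] at h3
        have h4 := hind φ χ hdis (orderOf (φ * χ ^ b)) (b * orderOf (φ * χ ^ b)) 0 0 (by
          rw [h3, pow_zero, pow_zero, mul_one])
        rw [pow_zero] at h4
        exact orderOf_dvd_of_pow_eq_one h4.1
    have htb : Tame n (φ * χ ^ b) := htmul n _ _ hφ (htpow n b χ hχ)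
    have h5 := h1 (φ * χ ^ b) htb
    rw [hsup, hord] at h5
    have h6 : ∀ i ∈ Finset.range m, i ∉ un m → wl W R C ((φ * χ ^ b) ^ i) = 0 := by
      intro i hi hiu
      have hi' : ¬ i.Coprime m := fun hc => hiu (MID.mem_un.2 ⟨Finset.mem_range.1 hi, hc⟩)
      have hlt : orderOf ((φ * χ ^ b) ^ i) < m := by
        have h7 : orderOf ((φ * χ ^ b) ^ i) = m / (m.gcd i) := by
          rcases Nat.eq_zero_or_pos i with h | h
          · rw [h, pow_zero, orderOf_one, Nat.gcd_zero_right, Nat.div_self hm0]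
          · rw [orderOf_pow' _ h.ne', hord]
        rw [h7]
        apply Nat.div_lt_self hm0
        have h8 : m.gcd i ≠ 1 := by
          rw [Nat.gcd_comm]
          exact hi'
        have h9 : 0 < m.gcd i := Nat.gcd_pos_of_pos_left _ hm0
        omega
      rw [wl, hIH _ (htpow n i _ htb) hlt, zero_mul]
    have h7 : ∑ i ∈ un m, wl W R C ((φ * χ ^ b) ^ i) = 0 := by
      rw [← h5]
      exact Finset.sum_subset (Finset.filter_subset _ _) h6
    rw [← h7]
    refine Finset.sum_congr rfl fun i _ => ?_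
    rw [mul_pow, ← pow_mul]
    congr 2
    rw [← hχq, pow_mod_orderOf]
  have hS0 : ∑ i ∈ un m, ∑ b ∈ Finset.Ico 1 q, wl W R C (φ ^ i * χ ^ b) = 0 := by
    have h3 : ∀ i ∈ un m, ∑ b ∈ Finset.Ico 1 q, wl W R C (φ ^ i * χ ^ b) =
        ∑ b ∈ Finset.Ico 1 q, wl W R C (φ ^ i * χ ^ (b * i % q)) := by
      intro i hi
      have hiq : i.Coprime q := Nat.Coprime.coprime_dvd_right hqm (MID.mem_un.1 hi).2
      exact (MID.sum_perm hq hiq fun b => wl W R C (φ ^ i * χ ^ b)).symm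
    rw [Finset.sum_congr rfl h3, Finset.sum_comm]
    exact Finset.sum_eq_zero hcyc
  -- the equation for the product
  have h2' := h2 φ χ hφ hχ hdis
  rw [hχq] at h2'
  have hsplit : ∀ i, ∑ b ∈ Finset.range q, wl W R C (φ ^ i * χ ^ b) =
      wl W R C (φ ^ i * χ ^ 0) + ∑ b ∈ Finset.Ico 1 q, wl W R C (φ ^ i * χ ^ b) := by
    intro i
    rw [Finset.range_eq_Ico, Finset.sum_eq_sum_Ico_succ_bot hq.pos]
  have h3 : ∑ i ∈ Finset.range m, wl W R C (φ ^ i * χ ^ 0) +
      ∑ i ∈ Finset.range m, ∑ b ∈ Finset.Ico 1 q, wl W R C (φ ^ i * χ ^ b) = 0 := by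
    rw [← Finset.sum_add_distrib, ← h2']
    exact Finset.sum_congr rfl fun i _ => (hsplit i).symm
  have h4 : ∑ i ∈ Finset.range m, wl W R C (φ ^ i * χ ^ 0) =
      ∑ i ∈ un m, W (φ ^ i) * ∏ᶠ l ∈ sup χ, R l (ev φ (l : ℕ) ^ i) := by
    have h5 : ∑ i ∈ un m, wl W R C (φ ^ i * χ ^ 0) =
        ∑ i ∈ Finset.range m, wl W R C (φ ^ i * χ ^ 0) := by
      refine Finset.sum_subset (Finset.filter_subset _ _) fun i hi hiu => hf0 i fun hc => ?_
      exact hiu (MID.mem_un.2 ⟨Finset.mem_range.1 hi, hc⟩)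
    rw [← h5]
    refine Finset.sum_congr rfl fun i hi => ?_
    rw [pow_zero, mul_one, wl, hscop φ i (MID.mem_un.1 hi).2]
    have h6 : C \ sup φ = sup χ := by
      rw [hC, Set.union_sdiff_left, sdiff_eq_left]
      exact hdis.symm
    rw [h6]
    congr 1
    refine finprod_mem_congr rfl fun l hl => ?_
    rw [hev φ l i hφ.fin (Set.disjoint_right.1 hdis hl)]
  have h5 : ∑ i ∈ Finset.range m, ∑ b ∈ Finset.Ico 1 q, wl W R C (φ ^ i * χ ^ b) =
      ∑ i ∈ (Finset.range m).filter (fun i => q ∣ i), ∑ b ∈ Finset.Ico 1 q,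
        wl W R C (φ ^ i * χ ^ b) := by
    rw [← Finset.sum_filter_add_sum_filter_not (Finset.range m) (fun i => i.Coprime m)]
    have h6 : ∑ i ∈ (Finset.range m).filter (fun i => i.Coprime m), ∑ b ∈ Finset.Ico 1 q,
        wl W R C (φ ^ i * χ ^ b) = 0 := hS0
    rw [h6, zero_add]
    symm
    apply Finset.sum_subset
    · intro i hi
      rw [Finset.mem_filter] at hi ⊢
      refine ⟨hi.1, fun hc => ?_⟩
      have h7 : q ∣ i.gcd m := Nat.dvd_gcd hi.2 hqm
      rw [Nat.Coprime.gcd_eq_one hc] at h7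
      exact hq.one_lt.ne' (Nat.dvd_one.1 h7)
    · intro i hi hni
      rw [Finset.mem_filter] at hi hni
      refine Finset.sum_eq_zero fun b _ => hfb i b hi.2 fun hqi => hni ⟨hi.1, hqi⟩
  rw [h4, h5] at h3
  exact h3

end Pool.DPC
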