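import Pool.Agent.H29.DPC.S1

/-!
# DPC: QSM, the choice of `q`
-/

set_option autoImplicit false

namespace Pool.DPC

open Polynomial Complex

/-- QSM: the choice of `q`. -/
theorem t_QSM : QSMStmt := by
  intro φ _ hord
  set m := orderOf φ with hm
  -- the order of a component
  have hcomp : ∀ q : Nat.Primes, φ q ^ m = 1 ∧ φ q ^ ((q : ℕ) - 1) = 1 := by
    intro q
    refine ⟨congrFun (pow_orderOf_eq_one φ) q, ?_⟩
    have hq : Fact (q : ℕ).Prime := ⟨q.2⟩
    ext a
    rw [MulChar.pow_apply_coe, MulChar.one_apply_coe, ← map_pow, ← Units.val_pow_eq_pow_val,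
      ZMod.units_pow_card_sub_one_eq_one, Units.val_one, map_one]
  have hgcd : ∀ q : Nat.Primes, orderOf (φ q) ∣ m.gcd ((q : ℕ) - 1) := fun q =>
    Nat.dvd_gcd (orderOf_dvd_of_pow_eq_one (hcomp q).1) (orderOf_dvd_of_pow_eq_one (hcomp q).2)
  by_cases h4 : 4 ∣ m
  · refine ⟨⟨2, Nat.prime_two⟩, (by norm_num : 2 ∣ 4).trans h4, ?_, Or.inl (by simpa using h4)⟩
    have h1 := (hcomp ⟨2, Nat.prime_two⟩).2
    have h2 : φ ⟨2, Nat.prime_two⟩ = 1 := by simpa using h1
    rw [h2, one_pow]
  · -- an odd prime factor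
    have hex : ∃ p : ℕ, p.Prime ∧ p ≠ 2 ∧ p ∣ m := by
      by_contra hcon
      have h1 : ∀ p : ℕ, p.Prime → p ∣ m → p = 2 := by
        intro p hp hpm
        by_contra h2
        exact hcon ⟨p, hp, h2, hpm⟩
      have h2 : m ∣ 2 := by
        obtain ⟨k, hk⟩ := (Nat.dvd_prime_pow Nat.prime_two).1
          (show m ∣ 2 ^ (m.factorization 2) from by
            conv_lhs => rw [← Nat.prod_factorization_pow_eq_self (show m ≠ 0 by omega)]
            rw [Finsupp.prod]
            have h3 : m.factorization.support ⊆ {2} := by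
              intro p hp
              rw [Nat.support_factorization, Nat.mem_primeFactors] at hp
              rw [Finset.mem_singleton]
              exact h1 p hp.1 hp.2.1
            rw [Finset.prod_subset h3 (fun p _ hp => by
              rw [Finsupp.notMem_support_iff.1 hp, pow_zero]), Finset.prod_singleton])
        rcases Nat.lt_or_ge k 2 with hk2 | hk2
        · rw [hk.2]
          exact (pow_dvd_pow 2 (show k ≤ 1 by omega)).trans (by norm_num)
        · exact absurd (((show (4 : ℕ) = 2 ^ 2 by norm_num) ▸ pow_dvd_pow 2 hk2).trans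
            (dvd_of_eq hk.2.symm)) h4
      exact absurd (Nat.le_of_dvd (by norm_num) h2) (by omega)
    classical
    have hspec := Nat.find_spec hex
    have hmin : ∀ p, p < Nat.find hex → ¬ (p.Prime ∧ p ≠ 2 ∧ p ∣ m) := fun p hp =>
      Nat.find_min hex hp
    set q := Nat.find hex with hqd
    refine ⟨⟨q, hspec.1⟩, hspec.2.2, ?_, Or.inr hspec.2.1⟩
    have h1 : m.gcd (q - 1) ∣ 2 := by
      have h0 : m.gcd (q - 1) ≠ 0 := (Nat.gcd_pos_of_pos_left _ (by omega)).ne'
      have hlt : m.gcd (q - 1) < q :=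
        lt_of_le_of_lt (Nat.le_of_dvd (by have := hspec.1.two_le; omega) (Nat.gcd_dvd_right _ _))
          (by have := hspec.1.two_le; omega)
      have h2 : ∀ p : ℕ, p.Prime → p ∣ m.gcd (q - 1) → p = 2 := by
        intro p hp hpd
        by_contra h3
        exact hmin p (lt_of_le_of_lt (Nat.le_of_dvd (Nat.pos_of_ne_zero h0) hpd) hlt)
          ⟨hp, h3, hpd.trans (Nat.gcd_dvd_left _ _)⟩
      have h5 : m.gcd (q - 1) = 2 ^ (m.gcd (q - 1)).primeFactorsList.length :=
        Nat.eq_prime_pow_of_unique_prime_dvd h0 (fun {d} hd hdd => h2 d hd hdd)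
      rcases Nat.lt_or_ge (m.gcd (q - 1)).primeFactorsList.length 2 with h6 | h6
      · rw [h5]
        exact (pow_dvd_pow 2 (show (m.gcd (q - 1)).primeFactorsList.length ≤ 1 by omega)).trans
          (by norm_num)
      · exfalso
        apply h4
        refine dvd_trans ?_ (Nat.gcd_dvd_left m (q - 1))
        rw [h5]
        exact (show (4 : ℕ) = 2 ^ 2 by norm_num) ▸ pow_dvd_pow 2 h6
    exact orderOf_dvd_iff_pow_eq_one.1 ((hgcd ⟨q, hspec.1⟩).trans h1)

end Pool.DPC
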