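import Pool.Agent.H29.DPC.S1

/-!
# DPC: STA, characters with two primes of ramification index `q`
-/

set_option autoImplicit false

namespace Pool.DPC

open Polynomial Complex

namespace STA

variable {l₁ : Nat.Primes}

/-- the component at `l₁` -/
noncomputable def comp (φ : Ch) (l₁ : Nat.Primes) : Ch := Pi.mulSingle l₁ (φ l₁)

theorem comp_same (φ : Ch) : comp φ l₁ l₁ = φ l₁ := Pi.mulSingle_eq_same _ _

theorem comp_ne (φ : Ch) {l : Nat.Primes} (h : l ≠ l₁) : comp φ l₁ l = 1 :=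
  Pi.mulSingle_eq_of_ne h _

theorem sup_comp (φ : Ch) (h : φ l₁ ≠ 1) : sup (comp φ l₁) = {l₁} := by
  ext l
  simp only [sup, Set.mem_ofPred_eq, Set.mem_singleton_iff]
  by_cases hl : l = l₁
  · subst hl
    rw [comp_same]
    exact ⟨fun _ => rfl, fun _ => h⟩
  · rw [comp_ne φ hl]
    exact ⟨fun h => absurd rfl h, fun h => absurd h hl⟩

/-- an element of odd prime order is not killed by 2 -/
theorem eq_one_of_two {G : Type*} [Group G] {x : G} {q k : ℕ} (hq : q.Prime) (hq2 : q ≠ 2)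
    (h1 : x ^ q = 1) (h2 : x ^ (2 * k) = 1) : x ^ k = 1 := by
  have h3 : orderOf x ∣ q := orderOf_dvd_of_pow_eq_one h1
  have h4 : orderOf x ∣ 2 * k := orderOf_dvd_of_pow_eq_one h2
  have h5 : (orderOf x).Coprime 2 := by
    have h6 : q.Coprime 2 := (Nat.coprime_primes hq Nat.prime_two).2 hq2
    exact Nat.Coprime.coprime_dvd_left h3 h6
  exact orderOf_dvd_iff_pow_eq_one.1 (h5.dvd_of_dvd_mul_left h4)

theorem even_comp {q : ℕ} (φ : Ch) (hq : q.Prime) (hq2 : q ≠ 2) (h1 : φ l₁ ^ q = 1) :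
    ∏ᶠ l : Nat.Primes, comp φ l₁ l (-1) = 1 := by
  rw [finprod_eq_single _ l₁ (fun l hl => by
    rw [comp_ne φ hl, MulChar.one_apply (isUnit_one.neg)])]
  rw [comp_same]
  have h2 : φ l₁ (-1) ^ 2 = 1 := by
    rw [← map_pow, neg_one_sq, map_one]
  have h3 : φ l₁ (-1) ^ q = 1 := by
    have h4 : (φ l₁ ^ q) (-1) = φ l₁ (-1) ^ q := MulChar.pow_apply' _ hq.ne_zero _
    rw [← h4, h1, MulChar.one_apply (isUnit_one.neg)]
  have hodd : ∃ j, q = 2 * j + 1 := by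
    rcases hq.eq_two_or_odd' with h | h
    · exact absurd h hq2
    · exact h
  obtain ⟨j, hj⟩ := hodd
  rw [hj, pow_succ, pow_mul, h2, one_pow, one_mul] at h3
  exact h3

theorem pair_single (φ : Ch) (l : Nat.Primes) (a : (ZMod (l : ℕ))ˣ) :
    pair φ (Pi.mulSingle l a) = φ l (a : ZMod (l : ℕ)) := by
  unfold pair
  rw [finprod_eq_single _ l (fun l' hl => by
    rw [Pi.mulSingle_eq_of_ne hl, Units.val_one, map_one])]
  rw [Pi.mulSingle_eq_same]

end STA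

/-- STA: the step for characters with two primes of ramification index `q`. -/
theorem t_STA (hS : SUPStmt) (hE : EVPStmt) (hM : MIDStmt) (hD : DIRStmt) (hA : AUXStmt)
    (hO : ORTStmt) (hL : LM1Stmt) : STAStmt := by
  obtain ⟨-, -, -, -, -, htmul, htpow, htord, -⟩ := hS
  obtain ⟨-, -, -, hpair, hpn⟩ := hE
  intro n d W R hn hnd hR h1 h2 φ q hφ hq2 hqm hqm2 hq1 hIH hTwo
  obtain ⟨l₁, l₂, hl12, hφ1, hφ2, hφ1q, hφ2q⟩ := hTwo
  have hq : (q : ℕ).Prime := q.2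
  have hqfact : Fact (q : ℕ).Prime := ⟨hq⟩
  set m := orderOf φ with hm
  have hm0 : 0 < m := (htord n φ hn hφ).1
  have hmn : m ∣ n := (htord n φ hn hφ).2
  have hqn : (q : ℕ) ∣ n := hqm.trans hmn
  have hmd : m.Coprime d := Nat.Coprime.coprime_dvd_left hmn hnd
  have hl1q : l₁ ≠ q := by
    rintro rfl
    have h3 := STA.eq_one_of_two (k := 1) hq hq2 hφ1q (by rw [mul_one]; exact hq1)
    rw [pow_one] at h3
    exact hφ1 h3
  have hl2q : l₂ ≠ q := by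
    rintro rfl
    have h3 := STA.eq_one_of_two (k := 1) hq hq2 hφ2q (by rw [mul_one]; exact hq1)
    rw [pow_one] at h3
    exact hφ2 h3
  set ρ := STA.comp φ l₁ with hρ
  have hρq : ρ ^ (q : ℕ) = 1 := by
    funext l
    rw [Pi.pow_apply, Pi.one_apply]
    by_cases hl : l = l₁
    · subst hl
      rw [hρ, STA.comp_same, hφ1q]
    · rw [hρ, STA.comp_ne φ hl, one_pow]
  have hρdvd : ∀ k, (q : ℕ) ∣ k → ρ ^ k = 1 := by
    rintro k ⟨c, rfl⟩
    rw [pow_mul, hρq, one_pow]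
  have hρt : Tame n ρ := ⟨by rw [hρ, STA.sup_comp φ hφ1]; exact Set.finite_singleton _,
    hρdvd n hqn, STA.even_comp φ hq hq2 hφ1q⟩
  set φ' := φ * ρ with hφ'
  have hφt : Tame n φ' := htmul n φ ρ hφ hρt
  have hφ'1 : φ' l₁ = φ l₁ ^ 2 := by
    rw [hφ', Pi.mul_apply, hρ, STA.comp_same, sq]
  have hφ'l : ∀ l, l ≠ l₁ → φ' l = φ l := by
    intro l hl
    rw [hφ', Pi.mul_apply, hρ, STA.comp_ne φ hl, mul_one]
  have hsup : sup φ' = sup φ := by
    ext l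
    simp only [sup, Set.mem_ofPred_eq]
    by_cases hl : l = l₁
    · subst hl
      rw [hφ'1]
      constructor
      · intro _
        exact hφ1
      · intro _ h3
        have h4 := STA.eq_one_of_two (k := 1) hq hq2 hφ1q (by rw [mul_one]; exact h3)
        rw [pow_one] at h4
        exact hφ1 h4
    · rw [hφ'l l hl]
  have hord : orderOf φ' = m := by
    apply Nat.dvd_antisymm
    · apply orderOf_dvd_of_pow_eq_one
      rw [hφ', mul_pow, hρdvd m hqm, mul_one, hm, pow_orderOf_eq_one]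
    · apply orderOf_dvd_of_pow_eq_one
      have h3 := pow_orderOf_eq_one φ'
      funext l
      have h4 : φ' l ^ orderOf φ' = 1 := congrFun h3 l
      rw [Pi.pow_apply, Pi.one_apply]
      by_cases hl : l = l₁
      · subst hl
        rw [hφ'1, ← pow_mul] at h4
        exact STA.eq_one_of_two hq hq2 hφ1q h4
      · rwa [hφ'l l hl] at h4
  -- the comparison of the two identities
  have hcmp : ∀ u : (l : Nat.Primes) → (ZMod (l : ℕ))ˣ, u q = 1 →
      ∑ i ∈ un m, W (φ ^ i) * ((pair φ u)⁻¹) ^ (d * i) =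
        ∑ i ∈ un m, W (φ' ^ i) * ((pair φ' u)⁻¹) ^ (d * i) := by
    intro u hu
    refine hL d m R _ _ _ _ hR (hpn φ u n hφ.fin hn hφ.exp).2 (hpn φ' u n hφt.fin hn hφt.exp).2
      fun B => ?_
    obtain ⟨p, hpB, hp4, hpC, hpev⟩ := hD (sup φ) hφ.fin u q hu B
    refine ⟨p, hpB, ?_⟩
    obtain ⟨χ, hχ, hχs, hχo⟩ := hA n q hq hqn p hp4
    have hdis : Disjoint (sup φ) (sup χ) := by
      rw [hχs, Set.disjoint_singleton_right]
      exact hpC
    have e1 := hM n W R hn h1 h2 φ χ q hφ hχ hdis hq hχo hqm hIH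
    have e2 := hM n W R hn h1 h2 φ' χ q hφt hχ (by rw [hsup]; exact hdis) hq hχo
      (by rw [hord]; exact hqm) (by rw [hord]; exact hIH)
    rw [hord, hsup] at e2
    rw [← hm] at e1
    have h3 : ∑ i ∈ (Finset.range m).filter (fun i => (q : ℕ) ∣ i), ∑ b ∈ Finset.Ico 1 (q : ℕ),
        wl W R (sup φ ∪ sup χ) (φ' ^ i * χ ^ b) =
        ∑ i ∈ (Finset.range m).filter (fun i => (q : ℕ) ∣ i), ∑ b ∈ Finset.Ico 1 (q : ℕ),
        wl W R (sup φ ∪ sup χ) (φ ^ i * χ ^ b) := by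
      refine Finset.sum_congr rfl fun i hi => Finset.sum_congr rfl fun b _ => ?_
      rw [Finset.mem_filter] at hi
      rw [hφ', mul_pow, hρdvd i hi.2, mul_one]
    rw [h3] at e2
    have h4 := add_right_cancel (e1.trans e2.symm)
    rw [hχs] at h4
    have h5 : ev φ (p : ℕ) = pair φ u := hpev φ le_rfl
    have h6 : ev φ' (p : ℕ) = pair φ' u := hpev φ' hsup.le
    simp only [finprod_mem_singleton, h5, h6] at h4
    exact h4
  -- the change of u
  obtain ⟨a, ha⟩ := MulChar.ne_one_iff.1 hφ1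
  obtain ⟨b0, hb0⟩ := MulChar.ne_one_iff.1 hφ2
  set ξ := φ l₁ (a : ZMod (l₁ : ℕ)) with hξ
  set η := φ l₂ (b0 : ZMod (l₂ : ℕ)) with hη
  have hξq : ξ ^ (q : ℕ) = 1 := by
    have h4 : (φ l₁ ^ (q : ℕ)) (a : ZMod (l₁ : ℕ)) = ξ ^ (q : ℕ) :=
      MulChar.pow_apply' _ hq.ne_zero _
    rw [← h4, hφ1q, MulChar.one_apply_coe]
  have hηq : η ^ (q : ℕ) = 1 := by
    have h4 : (φ l₂ ^ (q : ℕ)) (b0 : ZMod (l₂ : ℕ)) = η ^ (q : ℕ) :=
      MulChar.pow_apply' _ hq.ne_zero _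
    rw [← h4, hφ2q, MulChar.one_apply_coe]
  have hξ0 : ξ ≠ 0 := by
    intro h
    rw [h, zero_pow hq.ne_zero] at hξq
    exact zero_ne_one hξq
  have hηp : IsPrimitiveRoot η (q : ℕ) := by
    have h3 : orderOf η = (q : ℕ) := orderOf_eq_prime hηq hb0
    rw [← h3]
    exact IsPrimitiveRoot.orderOf η
  have : NeZero (q : ℕ) := ⟨hq.ne_zero⟩
  obtain ⟨j, -, hj⟩ := hηp.eq_pow_of_pow_eq_one (ξ := (ξ⁻¹) ^ 2) (by
    rw [← pow_mul, mul_comm 2, pow_mul, inv_pow, hξq, inv_one, one_pow])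
  set v : (l : Nat.Primes) → (ZMod (l : ℕ))ˣ := Pi.mulSingle l₁ a * Pi.mulSingle l₂ (b0 ^ j)
    with hv
  have hvq : v q = 1 := by
    rw [hv, Pi.mul_apply, Pi.mulSingle_eq_of_ne hl1q.symm, Pi.mulSingle_eq_of_ne hl2q.symm,
      mul_one]
  have hpv : pair φ v = ξ * (ξ⁻¹) ^ 2 := by
    rw [hv, (hpair φ φ _ _ hφ.fin hφ.fin).2.1, STA.pair_single, STA.pair_single, Units.val_pow_eq_pow_val,
      map_pow, ← hη, hj]
  have hρv : pair ρ v = ξ := by
    rw [hv, (hpair ρ ρ _ _ hρt.fin hρt.fin).2.1, STA.pair_single, STA.pair_single, hρ,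
      STA.comp_same, STA.comp_ne φ hl12.symm, MulChar.one_apply_coe, mul_one]
  have hφ'v : pair φ' v = 1 := by
    rw [hφ', (hpair φ ρ v v hφ.fin hρt.fin).1, hpv, hρv]
    field_simp
  have hkey : ∀ u : (l : Nat.Primes) → (ZMod (l : ℕ))ˣ, u q = 1 →
      ∑ i ∈ un m, (W (φ ^ i) * (ξ ^ (d * i) - 1)) * ((pair φ u)⁻¹) ^ (d * i) = 0 := by
    intro u hu
    have e1 := hcmp u hu
    have e2 := hcmp (u * v) (by rw [Pi.mul_apply, hu, hvq, mul_one])
    rw [(hpair φ φ u v hφ.fin hφ.fin).2.1, (hpair φ' φ' u v hφt.fin hφt.fin).2.1, hφ'v, mul_one,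
      ← e1, hpv] at e2
    have e3 : ∀ i, (W (φ ^ i) * (ξ ^ (d * i) - 1)) * ((pair φ u)⁻¹) ^ (d * i) =
        W (φ ^ i) * ((pair φ u * (ξ * (ξ⁻¹) ^ 2))⁻¹) ^ (d * i) -
          W (φ ^ i) * ((pair φ u)⁻¹) ^ (d * i) := by
      intro i
      have h3 : (pair φ u * (ξ * (ξ⁻¹) ^ 2))⁻¹ = (pair φ u)⁻¹ * ξ := by
        have h4 : ξ * (ξ⁻¹) ^ 2 = ξ⁻¹ := by field_simp
        rw [h4, mul_inv, inv_inv]
      rw [h3, mul_pow]
      ring
    rw [Finset.sum_congr rfl fun i _ => e3 i, Finset.sum_sub_distrib, e2, sub_self]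
  have h1m : 1 ∈ un m := by
    have h3 : 1 < m := lt_of_lt_of_le hq.one_lt (Nat.le_of_dvd hm0 hqm)
    simp [un, h3]
  have hfin := hO d φ q (fun i => W (φ ^ i) * (ξ ^ (d * i) - 1)) hφ.fin hm0 hmd hq1 hkey 1 h1m
  simp only [pow_one, mul_one] at hfin
  rcases mul_eq_zero.1 hfin with h3 | h3
  · exact h3
  · exfalso
    have h4 : orderOf ξ = (q : ℕ) := orderOf_eq_prime hξq ha
    have h5 : (q : ℕ) ∣ d := by
      rw [← h4]
      exact orderOf_dvd_of_pow_eq_one (sub_eq_zero.1 h3)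
    have h6 : (q : ℕ) ∣ n.gcd d := Nat.dvd_gcd hqn h5
    rw [Nat.Coprime.gcd_eq_one hnd] at h6
    exact hq.one_lt.ne' (Nat.dvd_one.1 h6)

end Pool.DPC
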