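import Pool.Agent.H29.DPC.S1

/-!
# DPC: SUP, ramified primes of products and powers
-/

set_option autoImplicit false

namespace Pool.DPC

open Polynomial Complex

namespace SUP

theorem mem_sup {φ : Ch} {l : Nat.Primes} : l ∈ sup φ ↔ φ l ≠ 1 := Iff.rfl

theorem sup_mul (φ χ : Ch) : sup (φ * χ) ⊆ sup φ ∪ sup χ := by
  intro l hl
  by_contra hcon
  rw [Set.mem_union, not_or, mem_sup, mem_sup, not_not, not_not] at hcon
  apply hl
  rw [Pi.mul_apply, hcon.1, hcon.2, mul_one]

theorem sup_mul_eq (φ χ : Ch) (h : Disjoint (sup φ) (sup χ)) :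
    sup (φ * χ) = sup φ ∪ sup χ := by
  apply Set.Subset.antisymm (sup_mul φ χ)
  rintro l (hl | hl)
  · have h1 : l ∉ sup χ := Set.disjoint_left.1 h hl
    rw [mem_sup, not_not] at h1
    rw [mem_sup, Pi.mul_apply, h1, mul_one]
    exact hl
  · have h1 : l ∉ sup φ := Set.disjoint_right.1 h hl
    rw [mem_sup, not_not] at h1
    rw [mem_sup, Pi.mul_apply, h1, one_mul]
    exact hl

theorem sup_pow (φ : Ch) (i : ℕ) : sup (φ ^ i) ⊆ sup φ := by
  intro l hl hcon
  apply hl
  rw [Pi.pow_apply, hcon, one_pow]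

theorem sup_pow_eq (φ : Ch) (i : ℕ) (hi : i.Coprime (orderOf φ)) : sup (φ ^ i) = sup φ := by
  apply Set.Subset.antisymm (sup_pow φ i)
  intro l hl hcon
  apply hl
  have h1 : φ l ^ i = 1 := hcon
  have h2 : φ l ^ orderOf φ = 1 := congrFun (pow_orderOf_eq_one φ) l
  have h3 : orderOf (φ l) ∣ i.gcd (orderOf φ) :=
    Nat.dvd_gcd (orderOf_dvd_of_pow_eq_one h1) (orderOf_dvd_of_pow_eq_one h2)
  rw [Nat.Coprime.gcd_eq_one hi] at h3
  exact orderOf_eq_one_iff.1 (Nat.dvd_one.1 h3)

theorem mulSupport_sub (φ : Ch) :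
    Function.mulSupport (fun l : Nat.Primes => φ l (-1)) ⊆ sup φ := by
  intro l hl hcon
  apply hl
  change φ l (-1) = 1
  have h1 : φ l = 1 := hcon
  rw [h1, MulChar.one_apply isUnit_one.neg]

theorem tame_one (n : ℕ) : Tame n 1 := by
  refine ⟨?_, one_pow n, ?_⟩
  · have h : sup (1 : Ch) = ∅ := by
      ext l
      rw [mem_sup]
      simp
    rw [h]
    exact Set.finite_empty
  · refine finprod_eq_one_of_forall_eq_one fun l => ?_
    rw [Pi.one_apply, MulChar.one_apply isUnit_one.neg]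

theorem tame_mul (n : ℕ) (φ χ : Ch) (hφ : Tame n φ) (hχ : Tame n χ) : Tame n (φ * χ) := by
  refine ⟨(hφ.fin.union hχ.fin).subset (sup_mul φ χ), ?_, ?_⟩
  · rw [mul_pow, hφ.exp, hχ.exp, mul_one]
  · have h1 : (fun l : Nat.Primes => (φ * χ) l (-1)) =
        fun l : Nat.Primes => φ l (-1) * χ l (-1) := by
      funext l
      rw [Pi.mul_apply, MulChar.mul_apply]
    rw [h1, finprod_mul_distrib (hφ.fin.subset (mulSupport_sub φ))
      (hχ.fin.subset (mulSupport_sub χ)), hφ.even, hχ.even, mul_one]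

theorem tame_pow (n i : ℕ) (φ : Ch) (hφ : Tame n φ) : Tame n (φ ^ i) := by
  induction i with
  | zero => rw [pow_zero]; exact tame_one n
  | succ i ih => rw [pow_succ]; exact tame_mul n _ _ ih hφ

end SUP

/-- SUP: ramified primes of products and powers, tameness. -/
theorem t_SUP : SUPStmt := by
  refine ⟨SUP.sup_mul, SUP.sup_mul_eq, SUP.sup_pow, SUP.sup_pow_eq, SUP.tame_one, SUP.tame_mul,
    SUP.tame_pow, ?_, ?_⟩
  · intro n φ hn hφ
    exact ⟨orderOf_pos_iff.2 (isOfFinOrder_iff_pow_eq_one.2 ⟨n, hn, hφ.exp⟩),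
      orderOf_dvd_of_pow_eq_one hφ.exp⟩
  · intro φ χ h i b i' b' heq
    have hl : ∀ l, φ l ^ i * χ l ^ b = φ l ^ i' * χ l ^ b' := fun l => congrFun heq l
    constructor
    · funext l
      rw [Pi.pow_apply, Pi.pow_apply]
      by_cases h1 : φ l = 1
      · rw [h1, one_pow, one_pow]
      · have h2 : l ∉ sup χ := Set.disjoint_left.1 h h1
        rw [SUP.mem_sup, not_not] at h2
        have h3 := hl l
        rw [h2, one_pow, one_pow, mul_one, mul_one] at h3
        exact h3
    · funext l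
      rw [Pi.pow_apply, Pi.pow_apply]
      by_cases h1 : χ l = 1
      · rw [h1, one_pow, one_pow]
      · have h2 : l ∉ sup φ := Set.disjoint_right.1 h h1
        rw [SUP.mem_sup, not_not] at h2
        have h3 := hl l
        rw [h2, one_pow, one_pow, one_mul, one_mul] at h3
        exact h3

end Pool.DPC
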