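import Pool.Agent.H29.DPC.S1

/-!
# DPC: statements of the modules, part 2 (Dirichlet characters, Galois theory, the theorem)
-/

set_option autoImplicit false

namespace Pool.DPC

open Polynomial Complex

/-- LIM: the Weil bound gives the limit. -/
def LIMStmt : Prop := ∀ (d : ℕ) (P : ℕ → ℚ[X]), Weil d P → Lim d (Rf d P)

/-- TD1: `toDC` is multiplicative, its values, evenness. -/
def TD1Stmt : Prop :=
  (∀ (C : Finset Nat.Primes) (φ χ : Ch), toDC C (φ * χ) = toDC C φ * toDC C χ) ∧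
  (∀ C : Finset Nat.Primes, toDC C 1 = 1) ∧
  (∀ (C : Finset Nat.Primes) (φ : Ch) (a : ℕ), sup φ ⊆ C → (∀ l ∈ C, ¬ (l : ℕ) ∣ a) →
    toDC C φ (a : ZMod (cn C)) = ev φ a) ∧
  ∀ (C : Finset Nat.Primes) (φ : Ch), sup φ ⊆ C →
    ((toDC C φ).Even ↔ ∏ᶠ l : Nat.Primes, φ l (-1) = 1)

/-- TD2: `toDC` is bijective. -/
def TD2Stmt : Prop :=
  (∀ (C : Finset Nat.Primes) (φ χ : Ch), sup φ ⊆ C → sup χ ⊆ C → toDC C φ = toDC C χ →
    φ = χ) ∧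
  ∀ (C : Finset Nat.Primes) (psi : DirichletCharacter ℂ (cn C)),
    ∃ φ : Ch, sup φ ⊆ C ∧ toDC C φ = psi

/-- TD3: conductors and levels. -/
def TD3Stmt : Prop :=
  (∀ (C : Finset Nat.Primes) (φ : Ch) (l : Nat.Primes), sup φ ⊆ C → l ∈ C →
    ((l : ℕ) ∣ (toDC C φ).conductor ↔ φ l ≠ 1)) ∧
  (∀ (C C' : Finset Nat.Primes) (φ : Ch) (h : cn C ∣ cn C'), sup φ ⊆ C → C ⊆ C' →
    toDC C' φ = DirichletCharacter.changeLevel h (toDC C φ)) ∧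
  (∀ f : ℕ, Squarefree f → ∃ C : Finset Nat.Primes, cn C = f) ∧
  ∀ C : Finset Nat.Primes, Squarefree (cn C) ∧ ∀ l : Nat.Primes, (l : ℕ) ∣ cn C ↔ l ∈ C

/-- GSM: Gauss sums of characters induced from a lower level. -/
def GSMStmt : Prop :=
  ∀ (f f' p : ℕ) (h : f ∣ f') (psi : DirichletCharacter ℂ f), f ≠ 0 → p.Prime → ¬ p ∣ f →
    f' = p * f →
    gaussTau (DirichletCharacter.changeLevel h psi) = -(psi (p : ZMod f)) * gaussTau psi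

/-- LFP: removing an Euler factor. -/
def LFPStmt : Prop :=
  ∀ (d : ℕ) (P : ℕ → ℚ[X]) (U : Set ℂ) (f f' p : ℕ) (h : f ∣ f') (psi : DirichletCharacter ℂ f)
    (L L' : ℂ → ℂ), Weil d P → Region U → f ≠ 0 → p.Prime → ¬ p ∣ f → f' = p * f →
    IsTwistedL P U psi L → IsTwistedL P U (DirichletCharacter.changeLevel h psi) L' →
    L' 1 = L 1 * aeval (psi (p : ZMod f) * (p : ℂ)⁻¹) (P p)

/-- The assumption on the functions `L`. -/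
def HL (n : ℕ) (P : ℕ → ℚ[X]) (U : Set ℂ) (L : (f : ℕ) → DirichletCharacter ℂ f → ℂ → ℂ) :
    Prop :=
  ∀ (f : ℕ) (psi : DirichletCharacter ℂ f), Squarefree f → psi.Even → psi ^ n = 1 →
    IsTwistedL P U psi (L f psi)

/-- VAL: one more prime in the level. -/
def VALStmt : Prop :=
  ∀ (n d : ℕ) (Om : ℝ) (P : ℕ → ℚ[X]) (U : Set ℂ)
    (L : (f : ℕ) → DirichletCharacter ℂ f → ℂ → ℂ), Weil d P → Region U → HL n P U L →
    ∀ (C : Finset Nat.Primes) (p : Nat.Primes) (φ : Ch), Tame n φ → sup φ ⊆ C → p ∉ C →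
    Vc d Om L (insert p C) φ = Vc d Om L C φ * Rf d P p (ev φ (p : ℕ))

/-- VCR: the values at all levels. -/
def VCRStmt : Prop :=
  ∀ (n d : ℕ) (Om : ℝ) (P : ℕ → ℚ[X]) (U : Set ℂ)
    (L : (f : ℕ) → DirichletCharacter ℂ f → ℂ → ℂ), Weil d P → Region U → HL n P U L →
    ∀ (C : Finset Nat.Primes) (φ : Ch), Tame n φ → sup φ ⊆ C →
    Vc d Om L C φ = wl (V0 d Om L) (Rf d P) C φ

/-- The statement (b): the traces. -/
def TraceIn (k : IntermediateField ℚ ℂ) (n d : ℕ) (Om : ℝ)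
    (L : (f : ℕ) → DirichletCharacter ℂ f → ℂ → ℂ) : Prop :=
  ∀ (f : ℕ) (Y : Subgroup (DirichletCharacter ℂ f)), FieldData n f Y →
    (∃ a b, Y = Subgroup.closure {a, b}) →
    ∑ᶠ psi ∈ (Y : Set (DirichletCharacter ℂ f)), normValue d Om (L f) psi ∈ k

/-- The statement (a): (i) and (ii) for all characters. -/
def AllEq (k : IntermediateField ℚ ℂ) (n d : ℕ) (Om : ℝ)
    (L : (f : ℕ) → DirichletCharacter ℂ f → ℂ → ℂ) : Prop :=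
  ∀ (f : ℕ) (Y : Subgroup (DirichletCharacter ℂ f)), FieldData n f Y → ∀ psi ∈ Y,
    Equivariant k (normValue d Om (L f)) psi

/-- BRG: the traces in terms of families. -/
def BRGStmt : Prop :=
  ∀ (k : IntermediateField ℚ ℂ) (n d : ℕ) (Om : ℝ) (P : ℕ → ℚ[X]) (U : Set ℂ)
    (L : (f : ℕ) → DirichletCharacter ℂ f → ℂ → ℂ), 0 < n → Weil d P → Region U → HL n P U L →
    TraceIn k n d Om L → ∀ φ χ : Ch, Tame n φ → Tame n χ →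
    ∑ᶠ ψ ∈ (Subgroup.closure {φ, χ} : Set Ch),
      wl (V0 d Om L) (Rf d P) (sup φ ∪ sup χ) ψ ∈ k

/-- GRF: Galois automorphisms and the added factors. -/
def GRFStmt : Prop :=
  ∀ (k : IntermediateField ℚ ℂ) (n d : ℕ) (P : ℕ → ℚ[X]) (C : Set Nat.Primes), 0 < n →
    C.Finite → ∀ (g : cyc k n ≃ₐ[k] cyc k n) (s : ℕ), Pow g s → ∀ φ : Ch, Tame n φ →
    ∃ r : cyc k n, (r : ℂ) = ∏ᶠ l ∈ C \ sup φ, Rf d P l (ev φ (l : ℕ)) ∧
      ((g r : cyc k n) : ℂ) = ∏ᶠ l ∈ C \ sup (φ ^ s), Rf d P l (ev (φ ^ s) (l : ℕ))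

/-- SEM: semilinear maps. -/
def SEMStmt : Prop :=
  ∀ (k : IntermediateField ℚ ℂ) (n d : ℕ) (P : ℕ → ℚ[X]) (V : Ch → ℂ), 0 < n →
    n.Coprime d → Lim d (Rf d P) →
    (∀ φ χ : Ch, Tame n φ → Tame n χ → ∑ᶠ ψ ∈ (Subgroup.closure {φ, χ} : Set Ch),
      wl V (Rf d P) (sup φ ∪ sup χ) ψ ∈ k) →
    ∀ (g : cyc k n ≃ₐ[k] cyc k n) (s : ℕ), Pow g s → ∀ (π : ℂ →ₗ[cyc k n] cyc k n) (φ : Ch),
    Tame n φ → ((g (π (V φ)) : cyc k n) : ℂ) = ((g (π 1) : cyc k n) : ℂ) * V (φ ^ s)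

/-- LVL: the same at all levels. -/
def LVLStmt : Prop :=
  ∀ (k : IntermediateField ℚ ℂ) (n d : ℕ) (P : ℕ → ℚ[X]) (V : Ch → ℂ), 0 < n →
    ∀ (g : cyc k n ≃ₐ[k] cyc k n) (s : ℕ), Pow g s → ∀ (π : ℂ →ₗ[cyc k n] cyc k n) (φ : Ch),
    Tame n φ → ((g (π (V φ)) : cyc k n) : ℂ) = ((g (π 1) : cyc k n) : ℂ) * V (φ ^ s) →
    ∀ C : Set Nat.Primes, C.Finite →
    ((g (π (wl V (Rf d P) C φ)) : cyc k n) : ℂ) =
      ((g (π 1) : cyc k n) : ℂ) * wl V (Rf d P) C (φ ^ s)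

/-- GAL: facts on the field `k(mu_n)`. -/
def GALStmt : Prop :=
  ∀ (k : IntermediateField ℚ ℂ) (n : ℕ), 0 < n →
    IsGalois k (cyc k n) ∧ FiniteDimensional k (cyc k n) ∧
    (∀ g : cyc k n ≃ₐ[k] cyc k n, ∃ s : ℕ, Pow g s) ∧
    (∀ (f : ℕ) (psi : DirichletCharacter ℂ f), psi ^ n = 1 → valueField k psi ≤ cyc k n) ∧
    ∀ (K : IntermediateField k ℂ), K ≤ cyc k n → ∀ g : K →ₐ[k] ℂ,
      ∃ g' : cyc k n ≃ₐ[k] cyc k n, ∀ (x : ℂ) (h : x ∈ K) (h' : x ∈ cyc k n),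
        ((g' ⟨x, h'⟩ : cyc k n) : ℂ) = g ⟨x, h⟩

/-- FLD: from semilinear maps to (i) and (ii). -/
def FLDStmt : Prop :=
  ∀ (k : IntermediateField ℚ ℂ) (n f : ℕ) (V : DirichletCharacter ℂ f → ℂ)
    (psi : DirichletCharacter ℂ f), 0 < n → psi ^ n = 1 →
    (∀ (g : cyc k n ≃ₐ[k] cyc k n) (s : ℕ), Pow g s → ∀ π : ℂ →ₗ[cyc k n] cyc k n,
      ((g (π (V psi)) : cyc k n) : ℂ) = ((g (π 1) : cyc k n) : ℂ) * V (psi ^ s)) →
    Equivariant k V psi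

/-- BAK: the easy direction. -/
def BAKStmt : Prop :=
  ∀ (k : IntermediateField ℚ ℂ) (n f : ℕ) (V : DirichletCharacter ℂ f → ℂ)
    (Y : Subgroup (DirichletCharacter ℂ f)), 0 < n → f ≠ 0 → (∀ psi ∈ Y, psi ^ n = 1) →
    (∀ psi ∈ Y, Equivariant k V psi) →
    ∑ᶠ psi ∈ (Y : Set (DirichletCharacter ℂ f)), V psi ∈ k

/-- The theorem. -/
def MainStmt : Prop :=
  ∀ (n d : ℕ), 0 < n → n.Coprime d → ∀ (Om : ℝ) (P : ℕ → ℚ[X]) (U : Set ℂ)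
    (L : (f : ℕ) → DirichletCharacter ℂ f → ℂ → ℂ), Weil d P → Region U → HL n P U L →
    ∀ k : IntermediateField ℚ ℂ, AllEq k n d Om L ↔ TraceIn k n d Om L

end Pool.DPC
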