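import Pool.Agent.H29.DPC.BAK
import Pool.Agent.H29.DPC.COR
import Pool.Agent.H29.DPC.LVL
import Pool.Agent.H29.DPC.MAIN
import Pool.Agent.H29.DPC.MID
import Pool.Agent.H29.DPC.QSM
import Pool.Agent.H29.DPC.STA
import Pool.Agent.H29.DPC.SUP
import Pool.Agent.H3.DPC.BRG
import Pool.Agent.H3.DPC.VAL
import Pool.Agent.H3.DPC.VCR
import Pool.Agent.H26.DPC.DIR
import Pool.Agent.H26.DPC.LIM
import Pool.Agent.H26.DPC.ORT
import Pool.Agent.H26.DPC.STB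
import Pool.Agent.H34.DPC.EVP
import Pool.Agent.H34.DPC.GAL
import Pool.Agent.H34.DPC.GRF
import Pool.Agent.H34.DPC.STC
import Pool.Agent.H34.DPC.AuxM
import Pool.Agent.H50.DPC.TD1
import Pool.Agent.H50.DPC.TD2
import Pool.Agent.H50.DPC.TD3
import Pool.Agent.H52.DPC.LFP
import Pool.Agent.H52.DPC.LM
import Pool.Agent.H52.DPC.SEM
import Pool.Agent.H79.DPC.IDX
import Pool.Agent.H79.DPC.GSM
import Pool.Agent.H85.DPC.FLD

/-!
# DPC: all modules together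
-/

set_option autoImplicit false

namespace Pool.DPC

theorem dpc_cor : CORStmt := by
  have hMID : MIDStmt := t_MID t_SUP t_evp
  exact t_COR (t_IDX t_SUP) t_QSM (t_STA t_SUP t_evp hMID t_DIR t_aux (t_ORT t_evp) t_lm1)
    (t_STB hMID t_DIR t_aux (t_ORT t_evp) t_lm2 t_evp t_SUP)
    (t_stc hMID t_DIR t_aux (t_ORT t_evp) t_lm1 t_evp t_SUP) t_SUP

theorem dpc_all : MainStmt := by
  have hVCR : VCRStmt := t_vcr (t_val t_td1 t_td3 t_GSM t_lfp)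
  exact t_MAIN t_LIM t_td1 t_td2 t_td3 hVCR (t_brg t_td1 t_td2 t_td3 hVCR t_SUP)
    (t_sem dpc_cor (t_grf t_evp t_SUP) t_SUP) (t_LVL (t_grf t_evp t_SUP)) (t_FLD t_gal)
    (t_BAK29 t_gal) t_SUP

end Pool.DPC
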