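import Mathlib

/-!
# DPC: the period conjecture for twists and the trace over the character group, definitions
-/

set_option autoImplicit false

namespace Pool.DPC

open Polynomial Complex

/-! ### The side of the problem -/

/-- the field `k(psi)` generated over `k` by the values of `psi` -/
noncomputable def valueField (k : IntermediateField ℚ ℂ) {f : ℕ} (psi : DirichletCharacter ℂ f) :
    IntermediateField k ℂ :=
  IntermediateField.adjoin k (Set.range psi)

/-- the Gauss sum `tau*(psi) = sum over a mod f of psi(a) exp(2 pi i a / f)` -/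
noncomputable def gaussTau {f : ℕ} (psi : DirichletCharacter ℂ f) : ℂ :=
  ∑ a ∈ Finset.range f, psi (a : ZMod f) *
    Complex.exp (2 * Real.pi * Complex.I * (a : ℂ) / (f : ℂ))

/-- the Euler factor `1 / P_l(psi(l) l^(-z))` -/
noncomputable def eulerFactor {f : ℕ} (P : ℕ → ℚ[X]) (psi : DirichletCharacter ℂ f) (z : ℂ)
    (l : ℕ) : ℂ :=
  (aeval (psi (l : ZMod f) * (l : ℂ) ^ (-z)) (P l))⁻¹

/-- `L` is the function `L_C(psi, z)`: it is holomorphic on `U` and given by the Euler product over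
the primes not dividing `f` when `Re z > 3/2`. -/
def IsTwistedL {f : ℕ} (P : ℕ → ℚ[X]) (U : Set ℂ) (psi : DirichletCharacter ℂ f) (L : ℂ → ℂ) :
    Prop :=
  DifferentiableOn ℂ L U ∧ ∀ z : ℂ, 3 / 2 < z.re →
    HasProd (fun l : {l : ℕ // l.Prime ∧ ¬ l ∣ f} => eulerFactor P psi z l) (L z)

/-- the normalised value `tau*(psi^-1)^d L(1) / Omega` -/
noncomputable def normValue {f : ℕ} (d : ℕ) (Om : ℝ) (L : DirichletCharacter ℂ f → ℂ → ℂ)
    (psi : DirichletCharacter ℂ f) : ℂ :=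
  gaussTau psi⁻¹ ^ d * L psi 1 / (Om : ℂ)

/-- (i) and (ii) for `psi` over the field `k`: `V(psi)` is in `k(psi)` and `g(V(psi)) = V(g o psi)`
for all embeddings `g` of `k(psi)` over `k`. -/
def Equivariant (k : IntermediateField ℚ ℂ) {f : ℕ} (V : DirichletCharacter ℂ f → ℂ)
    (psi : DirichletCharacter ℂ f) : Prop :=
  ∃ h : V psi ∈ valueField k psi, ∀ (g : valueField k psi →ₐ[k] ℂ)
    (psi' : DirichletCharacter ℂ f),
    (∀ a, psi' a = g ⟨psi a, IntermediateField.subset_adjoin _ _ (Set.mem_range_self a)⟩) →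
      g ⟨V psi, h⟩ = V psi'

/-- `f` is the conductor and `Y` the character group of a totally real, tamely ramified abelian
field whose Galois group has exponent dividing `n`. -/
structure FieldData (n f : ℕ) (Y : Subgroup (DirichletCharacter ℂ f)) : Prop where
  sqf : Squarefree f
  even : ∀ psi ∈ Y, psi.Even
  exp : ∀ psi ∈ Y, psi ^ n = 1
  cond : ∀ l : ℕ, l.Prime → l ∣ f → ∃ psi ∈ Y, l ∣ psi.conductor

/-- The local factors: `P_l(0) = 1`, degree at most `2 d`, all roots of absolute value at least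
`l^(-1/2)`. -/
def Weil (d : ℕ) (P : ℕ → ℚ[X]) : Prop :=
  ∀ l : ℕ, l.Prime → (P l).coeff 0 = 1 ∧ (P l).natDegree ≤ 2 * d ∧
    ∀ r : ℂ, aeval r (P l) = 0 → 1 ≤ Real.sqrt l * ‖r‖

/-- The region `U`. -/
structure Region (U : Set ℂ) : Prop where
  op : IsOpen U
  conn : IsPreconnected U
  half : ∀ z : ℂ, 3 / 2 < z.re → z ∈ U
  one : (1 : ℂ) ∈ U

/-! ### Tame characters as families -/

/-- families of characters modulo the primes -/
abbrev Ch : Type := (l : Nat.Primes) → DirichletCharacter ℂ (l : ℕ)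

/-- the ramified primes -/
def sup (φ : Ch) : Set Nat.Primes := {l | φ l ≠ 1}

/-- the value at a family of units -/
noncomputable def pair (φ : Ch) (u : (l : Nat.Primes) → (ZMod (l : ℕ))ˣ) : ℂ :=
  ∏ᶠ l : Nat.Primes, φ l (u l : ZMod (l : ℕ))

/-- the value at a number prime to the ramified primes -/
noncomputable def ev (φ : Ch) (a : ℕ) : ℂ :=
  ∏ᶠ l ∈ sup φ, φ l (a : ZMod (l : ℕ))

/-- even, finitely many ramified primes, order dividing `n` -/
structure Tame (n : ℕ) (φ : Ch) : Prop where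
  fin : (sup φ).Finite
  exp : φ ^ n = 1
  even : ∏ᶠ l : Nat.Primes, φ l (-1) = 1

/-- the value at level `C` -/
noncomputable def wl (W : Ch → ℂ) (R : Nat.Primes → ℂ → ℂ) (C : Set Nat.Primes) (φ : Ch) : ℂ :=
  W φ * ∏ᶠ l ∈ C \ sup φ, R l (ev φ (l : ℕ))

/-- the factor of an added prime is close to `(-1)^d t^(-d)` -/
def Lim (d : ℕ) (R : Nat.Primes → ℂ → ℂ) : Prop :=
  ∀ ε : ℝ, 0 < ε → ∃ B : ℕ, ∀ l : Nat.Primes, B < (l : ℕ) → ∀ t : ℂ, ‖t‖ = 1 →
    ‖R l t - (-1) ^ d * (t⁻¹) ^ d‖ < ε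

/-- the equations for all groups with two generators -/
def EqY (n : ℕ) (W : Ch → ℂ) (R : Nat.Primes → ℂ → ℂ) : Prop :=
  ∀ φ χ : Ch, Tame n φ → Tame n χ →
    ∑ᶠ ψ ∈ (Subgroup.closure {φ, χ} : Set Ch), wl W R (sup φ ∪ sup χ) ψ = 0

/-- the equations for cyclic groups -/
def Eq1 (n : ℕ) (W : Ch → ℂ) (R : Nat.Primes → ℂ → ℂ) : Prop :=
  ∀ φ : Ch, Tame n φ → ∑ i ∈ Finset.range (orderOf φ), wl W R (sup φ) (φ ^ i) = 0

/-- the equations for products of two cyclic groups with disjoint ramification -/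
def Eq2 (n : ℕ) (W : Ch → ℂ) (R : Nat.Primes → ℂ → ℂ) : Prop :=
  ∀ φ χ : Ch, Tame n φ → Tame n χ → Disjoint (sup φ) (sup χ) →
    ∑ i ∈ Finset.range (orderOf φ), ∑ b ∈ Finset.range (orderOf χ),
      wl W R (sup φ ∪ sup χ) (φ ^ i * χ ^ b) = 0

/-- the numbers below `m` prime to `m` -/
def un (m : ℕ) : Finset ℕ := (Finset.range m).filter fun i => i.Coprime m

/-- the factor of an added prime -/
noncomputable def Rf (d : ℕ) (P : ℕ → ℚ[X]) (l : Nat.Primes) (t : ℂ) : ℂ :=
  (-1) ^ d * (t⁻¹) ^ d * aeval (t * ((l : ℕ) : ℂ)⁻¹) (P (l : ℕ))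

/-! ### From families to Dirichlet characters -/

/-- the product of the primes in `C` -/
def cn (C : Finset Nat.Primes) : ℕ := ∏ l ∈ C, (l : ℕ)

/-- the Dirichlet character of a family -/
noncomputable def toDC (C : Finset Nat.Primes) (φ : Ch) : DirichletCharacter ℂ (cn C) :=
  ∏ l ∈ C.attach, DirichletCharacter.changeLevel
    (Finset.dvd_prod_of_mem (fun l : Nat.Primes => (l : ℕ)) l.2) (φ l)

open Classical in
/-- the ramified primes as a finite set -/
noncomputable def supF (φ : Ch) : Finset Nat.Primes :=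
  if h : (sup φ).Finite then h.toFinset else ∅

/-- the normalised value of a family at level `C` -/
noncomputable def Vc (d : ℕ) (Om : ℝ) (L : (f : ℕ) → DirichletCharacter ℂ f → ℂ → ℂ)
    (C : Finset Nat.Primes) (φ : Ch) : ℂ :=
  normValue d Om (L (cn C)) (toDC C φ)

/-- the normalised value of a family at its conductor -/
noncomputable def V0 (d : ℕ) (Om : ℝ) (L : (f : ℕ) → DirichletCharacter ℂ f → ℂ → ℂ) (φ : Ch) : ℂ :=
  Vc d Om L (supF φ) φ

/-- the field `k(mu_n)` -/
noncomputable def cyc (k : IntermediateField ℚ ℂ) (n : ℕ) : IntermediateField k ℂ :=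
  IntermediateField.adjoin k {z : ℂ | z ^ n = 1}

/-- `g` raises the `n`-th roots of unity to the power `s` -/
def Pow {k : IntermediateField ℚ ℂ} {n : ℕ} (g : cyc k n ≃ₐ[k] cyc k n) (s : ℕ) : Prop :=
  s.Coprime n ∧ ∀ z : cyc k n, z ^ n = 1 → g z = z ^ s

end Pool.DPC
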