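import Pool.Agent.H29.DPC.Defs

/-!
# DPC: statements of the modules, part 1 (the linear system)
-/

set_option autoImplicit false

namespace Pool.DPC

open Polynomial Complex

/-- EVP: elementary facts on `ev`, `pair`, `sup`. -/
def EVPStmt : Prop :=
  (∀ (φ : Ch) (C : Finset Nat.Primes) (a : ℕ), sup φ ⊆ C → (∀ l ∈ C, ¬ (l : ℕ) ∣ a) →
    ev φ a = ∏ l ∈ C, φ l (a : ZMod (l : ℕ))) ∧
  (∀ (φ : Ch) (p : Nat.Primes) (i : ℕ), (sup φ).Finite → p ∉ sup φ →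
    ev (φ ^ i) (p : ℕ) = ev φ (p : ℕ) ^ i) ∧
  (∀ (φ : Ch) (p : Nat.Primes) (n : ℕ), (sup φ).Finite → p ∉ sup φ → φ ^ n = 1 →
    ev φ (p : ℕ) ^ n = 1 ∧ (0 < n → ‖ev φ (p : ℕ)‖ = 1)) ∧
  (∀ (φ χ : Ch) (u v : (l : Nat.Primes) → (ZMod (l : ℕ))ˣ), (sup φ).Finite → (sup χ).Finite →
    pair (φ * χ) u = pair φ u * pair χ u ∧ pair φ (u * v) = pair φ u * pair φ v ∧
    ∀ i : ℕ, pair (φ ^ i) u = pair φ u ^ i) ∧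
  ∀ (φ : Ch) (u : (l : Nat.Primes) → (ZMod (l : ℕ))ˣ) (n : ℕ), (sup φ).Finite → 0 < n →
    φ ^ n = 1 → pair φ u ^ n = 1 ∧ ‖pair φ u‖ = 1

/-- SUP: ramified primes of products and powers, tameness. -/
def SUPStmt : Prop :=
  (∀ φ χ : Ch, sup (φ * χ) ⊆ sup φ ∪ sup χ) ∧
  (∀ φ χ : Ch, Disjoint (sup φ) (sup χ) → sup (φ * χ) = sup φ ∪ sup χ) ∧
  (∀ (φ : Ch) (i : ℕ), sup (φ ^ i) ⊆ sup φ) ∧
  (∀ (φ : Ch) (i : ℕ), i.Coprime (orderOf φ) → sup (φ ^ i) = sup φ) ∧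
  (∀ n : ℕ, Tame n 1) ∧
  (∀ (n : ℕ) (φ χ : Ch), Tame n φ → Tame n χ → Tame n (φ * χ)) ∧
  (∀ (n i : ℕ) (φ : Ch), Tame n φ → Tame n (φ ^ i)) ∧
  (∀ (n : ℕ) (φ : Ch), 0 < n → Tame n φ → 0 < orderOf φ ∧ orderOf φ ∣ n) ∧
  ∀ φ χ : Ch, Disjoint (sup φ) (sup χ) → ∀ i b i' b' : ℕ, φ ^ i * χ ^ b = φ ^ i' * χ ^ b' →
    φ ^ i = φ ^ i' ∧ χ ^ b = χ ^ b'

/-- IDX: from subgroups to indices. -/
def IDXStmt : Prop :=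
  ∀ (n : ℕ) (W : Ch → ℂ) (R : Nat.Primes → ℂ → ℂ), 0 < n → EqY n W R → Eq1 n W R ∧ Eq2 n W R

/-- MID: the main identity. -/
def MIDStmt : Prop :=
  ∀ (n : ℕ) (W : Ch → ℂ) (R : Nat.Primes → ℂ → ℂ), 0 < n → Eq1 n W R → Eq2 n W R →
    ∀ (φ χ : Ch) (q : ℕ), Tame n φ → Tame n χ → Disjoint (sup φ) (sup χ) → q.Prime →
    orderOf χ = q → q ∣ orderOf φ →
    (∀ ψ : Ch, Tame n ψ → orderOf ψ < orderOf φ → W ψ = 0) →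
    ∑ i ∈ un (orderOf φ), W (φ ^ i) * ∏ᶠ l ∈ sup χ, R l (ev φ (l : ℕ) ^ i) +
      ∑ i ∈ (Finset.range (orderOf φ)).filter (fun i => q ∣ i), ∑ b ∈ Finset.Ico 1 q,
        wl W R (sup φ ∪ sup χ) (φ ^ i * χ ^ b) = 0

/-- DIR: Dirichlet's theorem. -/
def DIRStmt : Prop :=
  ∀ (C : Set Nat.Primes), C.Finite → ∀ (u : (l : Nat.Primes) → (ZMod (l : ℕ))ˣ)
    (q : Nat.Primes), u q = 1 → ∀ B : ℕ, ∃ p : Nat.Primes, B < (p : ℕ) ∧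
    (p : ℕ) % (4 * (q : ℕ)) = 1 ∧ p ∉ C ∧ ∀ φ : Ch, sup φ ⊆ C → ev φ (p : ℕ) = pair φ u

/-- AUX: characters of order `q` and prime conductor. -/
def AUXStmt : Prop :=
  ∀ (n q : ℕ), q.Prime → q ∣ n → ∀ p : Nat.Primes, (p : ℕ) % (4 * q) = 1 →
    ∃ χ : Ch, Tame n χ ∧ sup χ = {p} ∧ orderOf χ = q

/-- ORT: independence of characters. -/
def ORTStmt : Prop :=
  ∀ (d : ℕ) (φ : Ch) (q : Nat.Primes) (w : ℕ → ℂ), (sup φ).Finite → 0 < orderOf φ →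
    (orderOf φ).Coprime d → φ q ^ 2 = 1 →
    (∀ u : (l : Nat.Primes) → (ZMod (l : ℕ))ˣ, u q = 1 →
      ∑ i ∈ un (orderOf φ), w i * ((pair φ u)⁻¹) ^ (d * i) = 0) →
    ∀ i ∈ un (orderOf φ), w i = 0

/-- LM1: limit of sums with one added prime. -/
def LM1Stmt : Prop :=
  ∀ (d m : ℕ) (R : Nat.Primes → ℂ → ℂ) (w w' : ℕ → ℂ) (x x' : ℂ), Lim d R → ‖x‖ = 1 →
    ‖x'‖ = 1 →
    (∀ B : ℕ, ∃ p : Nat.Primes, B < (p : ℕ) ∧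
      ∑ i ∈ un m, w i * R p (x ^ i) = ∑ i ∈ un m, w' i * R p (x' ^ i)) →
    ∑ i ∈ un m, w i * (x⁻¹) ^ (d * i) = ∑ i ∈ un m, w' i * (x'⁻¹) ^ (d * i)

/-- LM2: limit of sums with two added primes. -/
def LM2Stmt : Prop :=
  ∀ (d m : ℕ) (R : Nat.Primes → ℂ → ℂ) (w : ℕ → ℂ) (x : ℂ), Lim d R → ‖x‖ = 1 →
    (∀ B : ℕ, ∃ p p' : Nat.Primes, B < (p : ℕ) ∧ B < (p' : ℕ) ∧
      ∑ i ∈ un m, w i * (R p (x ^ i) * R p' 1) = 0) →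
    ∑ i ∈ un m, w i * (x⁻¹) ^ (d * i) = 0

/-- The induction hypothesis for `φ`. -/
def IH (n : ℕ) (W : Ch → ℂ) (m : ℕ) : Prop := ∀ ψ : Ch, Tame n ψ → orderOf ψ < m → W ψ = 0

/-- STC: the step when `q ^ 2` divides the order. -/
def STCStmt : Prop :=
  ∀ (n d : ℕ) (W : Ch → ℂ) (R : Nat.Primes → ℂ → ℂ), 0 < n → n.Coprime d → Lim d R →
    Eq1 n W R → Eq2 n W R → ∀ (φ : Ch) (q : Nat.Primes), Tame n φ →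
    (q : ℕ) ^ 2 ∣ orderOf φ → φ q ^ 2 = 1 → IH n W (orderOf φ) → W φ = 0

/-- Two ramified primes with components of order `q`. -/
def Two (q : ℕ) (φ : Ch) : Prop :=
  ∃ l₁ l₂ : Nat.Primes, l₁ ≠ l₂ ∧ φ l₁ ≠ 1 ∧ φ l₂ ≠ 1 ∧ φ l₁ ^ q = 1 ∧ φ l₂ ^ q = 1

/-- STA: the step for characters with two primes of ramification index `q`. -/
def STAStmt : Prop :=
  ∀ (n d : ℕ) (W : Ch → ℂ) (R : Nat.Primes → ℂ → ℂ), 0 < n → n.Coprime d → Lim d R →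
    Eq1 n W R → Eq2 n W R → ∀ (φ : Ch) (q : Nat.Primes), Tame n φ → (q : ℕ) ≠ 2 →
    (q : ℕ) ∣ orderOf φ → ¬ (q : ℕ) ^ 2 ∣ orderOf φ → φ q ^ 2 = 1 → IH n W (orderOf φ) →
    Two (q : ℕ) φ → W φ = 0

/-- STB: the step for the other characters. -/
def STBStmt : Prop :=
  ∀ (n d : ℕ) (W : Ch → ℂ) (R : Nat.Primes → ℂ → ℂ), 0 < n → n.Coprime d → Lim d R →
    Eq1 n W R → Eq2 n W R → ∀ (φ : Ch) (q : Nat.Primes), Tame n φ → (q : ℕ) ≠ 2 →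
    (q : ℕ) ∣ orderOf φ → ¬ (q : ℕ) ^ 2 ∣ orderOf φ → φ q ^ 2 = 1 → IH n W (orderOf φ) →
    (∀ ψ : Ch, Tame n ψ → orderOf ψ = orderOf φ → ψ q ^ 2 = 1 → Two (q : ℕ) ψ → W ψ = 0) →
    W φ = 0

/-- QSM: the choice of `q`. -/
def QSMStmt : Prop :=
  ∀ (φ : Ch), (sup φ).Finite → 2 < orderOf φ →
    ∃ q : Nat.Primes, (q : ℕ) ∣ orderOf φ ∧ φ q ^ 2 = 1 ∧
      ((q : ℕ) ^ 2 ∣ orderOf φ ∨ (q : ℕ) ≠ 2)

/-- COR: the linear system has only the zero solution. -/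
def CORStmt : Prop :=
  ∀ (n d : ℕ) (W : Ch → ℂ) (R : Nat.Primes → ℂ → ℂ), 0 < n → n.Coprime d → Lim d R →
    EqY n W R → ∀ φ : Ch, Tame n φ → W φ = 0

end Pool.DPC
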